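import Pool.Agent.P8H10.Quin4

/-!
# Q2 for two by two matrices: automorphisms of order five and units of cyclic quintic fields

Let `L` be the Iwasawa logarithm on the algebraic closure `C` of `ℚ_p`.

1. Let `V` be a rational space of dimension at most four which consists of `p`-adic logarithms of algebraic
   numbers, and let `τ` be an automorphism of `C` over `ℚ_p` such that `τ V ⊆ V` and
   `1 + τ + τ ^ 2 + τ ^ 3 + τ ^ 4 = 0` on `V` (that is, `τ` is of order five on the four-dimensional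
   space `V`). Then the conclusion of Q2 holds for all `2 × 2` matrices with entries in `V` (this is the
   `p`-adic four exponentials conjecture for the space `V`).
2. For example, let `k` be a cyclic quintic number field, embedded into `C`, and suppose that `p` does not
   split completely in `k`, that is, the image of `k` is not contained in `ℚ_p`. Then the conclusion of Q2
   holds for all `2 × 2` matrices whose entries are rational combinations of `p`-adic logarithms of units
   of `k`. These logarithms span a rational space of dimension four.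

Proof. Let `φ : ℚ(ζ) → V`, `ζ ^ 5 = 1`, be an isomorphism with `τ φ(a) = φ(ζ a)`. By the theorem of Brumer
`φ(a) = ∑ σ_j(a) e_j`, `j = 1, …, 4`, with numbers `e_j` which are linearly independent over the algebraic
numbers. Suppose that `φ(a) φ(d) = φ(b) φ(c)`. The conjugates of this equation under the powers of `τ` give
`∑ (σ_i(a) σ_j(d) - σ_i(b) σ_j(c)) e_i e_j = 0`, the sum over all `i`, `j` with `i + j = r`, for every `r`
modulo five. If `a d ≠ b c` then, up to algebraic factors, `e_2 ^ 2 = e_1 e_3`, `e_3 ^ 2 = e_2 e_4`,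
`e_1 ^ 2 = e_3 e_4`, and `(e_2 / e_3) ^ 5` would be algebraic. Hence `a d = b c`, and the equation for
`e_1 e_2` gives `(b / a - σ_2(b / a)) (c / a - σ_2(c / a)) = 0`, so that `b / a` or `c / a` is rational.
-/

set_option autoImplicit false

namespace Pool.Agent.Results.MP_1f047c_nt.CyclicQuinticUnits

open Module NumberField

/-- `L` is the Iwasawa `p`-adic logarithm on the algebraic closure of `ℚ_p`. -/
def IsIwasawaLog (p : ℕ) [Fact p.Prime] (L : PadicAlgCl p → PadicAlgCl p) : Prop :=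
  (∀ x y : PadicAlgCl p, x ≠ 0 → y ≠ 0 → L (x * y) = L x + L y) ∧
  L ((p : ℕ) : PadicAlgCl p) = 0 ∧
  ∀ z : PadicAlgCl p, ‖z‖ < 1 →
    HasSum (fun n : ℕ => (-1 : PadicAlgCl p) ^ n * z ^ (n + 1) / ((n : PadicAlgCl p) + 1))
      (L (1 + z))

/-- Every singular `2 × 2` matrix with entries in `V` satisfies the conclusion of Q2. -/
def FourExponentials {p : ℕ} [Fact p.Prime] (V : Submodule ℚ (PadicAlgCl p)) : Prop :=
  ∀ M : Matrix (Fin 2) (Fin 2) (PadicAlgCl p), (∀ i j, M i j ∈ V) → M.det = 0 →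
    ∃ w v : Fin 2 → ℚ, w ≠ 0 ∧ v ≠ 0 ∧
      ∑ i, ∑ j, (w i : PadicAlgCl p) * M i j * (v j : PadicAlgCl p) = 0

/-- **Main result.** -/
theorem result (p : ℕ) [Fact p.Prime] (L : PadicAlgCl p → PadicAlgCl p) (hL : IsIwasawaLog p L) :
    (∀ V : Submodule ℚ (PadicAlgCl p), Module.Finite ℚ V → finrank ℚ V ≤ 4 →
      (∀ y ∈ V, ∃ α : PadicAlgCl p, α ≠ 0 ∧ IsAlgebraic ℚ α ∧ y = L α) →
      ∀ τ : PadicAlgCl p ≃ₐ[ℚ_[p]] PadicAlgCl p, (∀ y ∈ V, τ y ∈ V) →
      (∀ y ∈ V, y + τ y + τ (τ y) + τ (τ (τ y)) + τ (τ (τ (τ y))) = 0) →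
      FourExponentials V) ∧
    ∀ (k : Type) [Field k] [NumberField k] [IsGalois ℚ k], finrank ℚ k = 5 →
      ∀ ι : k →+* PadicAlgCl p, (∃ y : k, ∀ b : ℚ_[p], (b : PadicAlgCl p) ≠ ι y) →
      FourExponentials (Submodule.span ℚ (Set.range fun u : (𝓞 k)ˣ => L (ι (u : k)))) := by
  have hL' : Pool.Agent.W245.PB.IsIwasawaLog p L := ⟨hL.1, hL.2.1, hL.2.2⟩
  refine ⟨fun V hfin hV hlog τ hτ hsum M hM hdet => ?_, fun k _ _ _ hk ι hns M hM hdet => ?_⟩
  · exact Pool.Agent.P8H10.quintic_padic hL' V hV hlog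
      ((τ : PadicAlgCl p →ₐ[ℚ_[p]] PadicAlgCl p) : PadicAlgCl p →+* PadicAlgCl p) hτ hsum M hM hdet
  · exact Pool.Agent.P8H10.units_quintic ι hk hL' hns M hM hdet

end Pool.Agent.Results.MP_1f047c_nt.CyclicQuinticUnits
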