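import Pool.Agent.P8H33.QC.App2

/-!
# Q2 for the logarithms of four conjugate numbers with the alternating group

Let `L` be the Iwasawa logarithm on the algebraic closure `C` of `ℚ_p`, and let `α_1, …, α_4` be nonzero elements
of `C` such that every even permutation of them is induced by an automorphism of `C` over `ℚ_p` (for distinct
`α_i` this is possible only for `p = 2`; examples are the zeros of every quartic polynomial over `ℚ_2` with group `A_4` or
`S_4`, such as `X ^ 4 + 2 X + 2`). Let `V` be the rational space generated by the logarithms `L(α_i)`.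

1. Let `U` be a rational space whose elements are fixed by these automorphisms and which contains
   `∑ L(α_i)`. If the conclusion of Q2 holds for all `2 × 2` matrices with entries in `U` (the `p`-adic four
   exponentials for `U`) then it holds for all `2 × 2` matrices with entries in `U + V`.
2. In particular it holds for `ℚ L(β) + V` for every algebraic `β` such that `L(β)` lies in `ℚ_p` (dimension five
   in general).
3. If `∑ L(α_i) = 0` then the assertion Q2 holds for all matrices of all sizes with entries in `V`.
4. For the zeros `α_i` of `X ^ 4 + 2 X + 2` in the algebraic closure of `ℚ_2` the space `V` has dimension three, the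
   assertion Q2 holds for all matrices of all sizes with entries in `V`, and for `2 × 2` matrices with
   entries in `ℚ L(β) + ℚ L(γ) + V` for all algebraic `β`, `γ` whose logarithms lie in `ℚ_2` (for instance
   rational numbers).

Proof. Put `x = L(α_1) + L(α_2) - L(α_3) - L(α_4)` and define `y`, `z` in the same way. The group `A_4` permutes
`x`, `y`, `z` up to signs: there are automorphisms `σ` with `σ x = x`, `σ y = -y`, `σ z = -z`, and `τ` of order three. Suppose
that a matrix `M = W + x A + y B + z C` with entries of `W` in `U` and rational `A`, `B`, `C` is singular, and conjugate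
the relation `det M = 0`. Separating signs, and then using that `x ^ 2`, `y ^ 2`, `z ^ 2` satisfy only the trivial
relations, the matrices `W, A, B, C` are mutually orthogonal for the polar form of the
determinant, and `det A = det B = det C`. A definite ternary quadratic form is not a restriction of the determinant
of `2 × 2` matrices, which is of signature `(2, 2)`. So the three determinants vanish, and a nonzero one of the
matrices `A, B, C`, of rank one and orthogonal to all four, gives the rational vectors; if all three are zero then `M = W`.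
For `3 × 3` matrices the relation `det (x A + y B + z C) = 0` has the form
`(a x + b y + c z) (x ^ 2 + y ^ 2 + z ^ 2) = 0` and the cubic form has the rational zeros of the linear factor; the kernel of the
corresponding rational matrix gives the rational vectors. No transcendence theory is needed for this; the theorem
of Brumer is used for two-dimensional spaces in part 2 and 4.
-/

set_option autoImplicit false

namespace Pool.Agent.Results.MP_1f047c_nt.QuarticConjugates

open Module

/-- `L` is the Iwasawa `p`-adic logarithm on the algebraic closure of `ℚ_p`. -/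
def IsIwasawaLog (p : ℕ) [Fact p.Prime] (L : PadicAlgCl p → PadicAlgCl p) : Prop :=
  (∀ x y : PadicAlgCl p, x ≠ 0 → y ≠ 0 → L (x * y) = L x + L y) ∧
  L ((p : ℕ) : PadicAlgCl p) = 0 ∧
  ∀ z : PadicAlgCl p, ‖z‖ < 1 →
    HasSum (fun n : ℕ => (-1 : PadicAlgCl p) ^ n * z ^ (n + 1) / ((n : PadicAlgCl p) + 1))
      (L (1 + z))

/-- Every singular `n × n` matrix with entries in `V` satisfies the conclusion of Q2. -/
def Q2For {p : ℕ} [Fact p.Prime] (n : ℕ) (V : Submodule ℚ (PadicAlgCl p)) : Prop :=
  ∀ M : Matrix (Fin n) (Fin n) (PadicAlgCl p), (∀ i j, M i j ∈ V) → M.det = 0 →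
    ∃ w v : Fin n → ℚ, w ≠ 0 ∧ v ≠ 0 ∧
      ∑ i, ∑ j, (w i : PadicAlgCl p) * M i j * (v j : PadicAlgCl p) = 0

/-- Every even permutation of the numbers `α i` is induced by an automorphism over `ℚ_p` which fixes the elements
of `U`. -/
def EvenPermutations {p : ℕ} [Fact p.Prime] (α : Fin 4 → PadicAlgCl p)
    (U : Submodule ℚ (PadicAlgCl p)) : Prop :=
  ∀ π ∈ alternatingGroup (Fin 4), ∃ σ : PadicAlgCl p ≃ₐ[ℚ_[p]] PadicAlgCl p,
    (∀ i, σ (α i) = α (π i)) ∧ ∀ w ∈ U, σ w = w

/-- The rational span of the logarithms of the numbers `α i`. -/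
noncomputable def logSpan {p : ℕ} [Fact p.Prime] (L : PadicAlgCl p → PadicAlgCl p) (α : Fin 4 → PadicAlgCl p) :
    Submodule ℚ (PadicAlgCl p) :=
  Submodule.span ℚ (Set.range fun i => L (α i))

/-- **Main result.** -/
theorem result :
    (∀ (p : ℕ) [Fact p.Prime] (L : PadicAlgCl p → PadicAlgCl p), IsIwasawaLog p L →
      ∀ α : Fin 4 → PadicAlgCl p, (∀ i, α i ≠ 0) →
        (∀ U : Submodule ℚ (PadicAlgCl p), EvenPermutations α U → ∑ i, L (α i) ∈ U →
          Q2For 2 U → Q2For 2 (U ⊔ logSpan L α)) ∧
        (EvenPermutations α ⊥ → (∀ i, IsAlgebraic ℚ (α i)) →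
          ∀ β : PadicAlgCl p, β ≠ 0 → IsAlgebraic ℚ β → (∃ b : ℚ_[p], L β = b) →
            Q2For 2 (Submodule.span ℚ {L β} ⊔ logSpan L α)) ∧
        (EvenPermutations α ⊥ → ∑ i, L (α i) = 0 → ∀ n : ℕ, Q2For n (logSpan L α))) ∧
    ∀ L : PadicAlgCl 2 → PadicAlgCl 2, IsIwasawaLog 2 L →
      ∃ α : Fin 4 → PadicAlgCl 2, Function.Injective α ∧ (∀ i, α i ^ 4 + 2 * α i + 2 = 0) ∧
        finrank ℚ (logSpan L α) = 3 ∧ (∀ n : ℕ, Q2For n (logSpan L α)) ∧
        ∀ β γ : PadicAlgCl 2, β ≠ 0 → γ ≠ 0 → IsAlgebraic ℚ β → IsAlgebraic ℚ γ →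
          (∃ b : ℚ_[2], L β = b) → (∃ c : ℚ_[2], L γ = c) →
            Q2For 2 (Submodule.span ℚ {L β, L γ} ⊔ logSpan L α) := by
  refine ⟨?_, ?_⟩
  · intro p _ L hL α hα
    have hL' : Pool.Agent.W245.PB.IsIwasawaLog p L := ⟨hL.1, hL.2.1, hL.2.2⟩
    refine ⟨?_, ?_, ?_⟩
    · intro U hA hsum hU
      exact Pool.Agent.P8H33.QC.alt_four hL' α hα U hA hsum hU
    · intro hA halg β hβ hβa hβp
      have hprod : L (∏ i, α i) = ∑ i, L (α i) := hL'.prod Finset.univ α (fun i _ => hα i)
      have hprod0 : ∏ i, α i ≠ 0 := Finset.prod_ne_zero_iff.2 fun i _ => hα i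
      have hproda : IsAlgebraic ℚ (∏ i, α i) := by
        rw [Fin.prod_univ_four]
        exact (((halg 0).mul (halg 1)).mul (halg 2)).mul (halg 3)
      have h1 : Q2For 2 (Submodule.span ℚ {L β, L (∏ i, α i)} ⊔ logSpan L α) := by
        refine Pool.Agent.P8H33.QC.alt_four hL' α hα _ (fun π hπ => ?_) ?_
          (Pool.Agent.P8H33.QC.QQ_small hL' hβ hβa hprod0 hproda 2)
        · obtain ⟨σ, hσ, -⟩ := hA π hπ
          refine ⟨σ, hσ, fun w hw => ?_⟩
          obtain ⟨a, b, rfl⟩ := Submodule.mem_span_pair.1 hw
          obtain ⟨x, hx⟩ := hβp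
          have h2 : σ (L β) = L β := by
            rw [hx]
            exact AlgEquiv.commutes σ x
          have h3 : σ (L (∏ i, α i)) = L (∏ i, α i) := by
            rw [hprod, map_sum, ← Equiv.sum_comp π (fun i => L (α i))]
            refine Finset.sum_congr rfl fun i _ => ?_
            rw [← Pool.Agent.P8H10.log_gal hL' σ (hα i), hσ]
          simp only [Algebra.smul_def, map_add, map_mul, eq_ratCast, map_ratCast, h2, h3]
        · rw [← hprod]
          exact Submodule.subset_span (by simp)
      refine Pool.Agent.P8H33.QC.QQ_mono ?_ h1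
      refine sup_le_sup_right (Submodule.span_mono ?_) _
      intro y hy
      rw [Set.mem_singleton_iff] at hy
      rw [hy]
      exact Set.mem_insert _ _
    · intro hA hsum n
      refine Pool.Agent.P8H33.QC.alt_all hL' α hα (fun π hπ => ?_) hsum n
      obtain ⟨σ, hσ, -⟩ := hA π hπ
      exact ⟨σ, hσ⟩
  · intro L hL
    have hL' : Pool.Agent.W245.PB.IsIwasawaLog 2 L := ⟨hL.1, hL.2.1, hL.2.2⟩
    exact Pool.Agent.P8H33.QC.example_quartic hL'

end Pool.Agent.Results.MP_1f047c_nt.QuarticConjugates
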