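import Mathlib
import Pool.Agent.P8H63.RS.Fin2

set_option autoImplicit false

/-!
# Ranks of matrices of logarithms on algebraic subspaces

Let `M` be an `n × n` matrix of (complex or `p`-adic) logarithms of algebraic numbers. The theorem of
Waldschmidt and Masser says that `wᵗ M v = 0` for some nonzero rational `w`, `v` if the rank of `M`
is less than `n / 2`. Here this is proved if the rank of `M` is small on any one subspace `U` defined
over the algebraic numbers: let `s` be the dimension of `U`, let `m` be the dimension of the smallest space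
defined over `ℚ` that contains `U`, and let `ρ` be the rank of the restriction of `M` to `U`. If
`ρ < s n / (n + m)`, that is `ρ m < (s - ρ) n`, then there are nonzero rational `w`, `v` with `wᵗ M v = 0`.
For `U` everything this is the theorem of Waldschmidt and Masser, for `s = m` it is its
form for rectangular matrices, and for `m = n` it follows from the theorem of Roy on the structural rank
of matrices of linear forms in logarithms; it is new for `s < m < n`.

In other words, if `M` is a counterexample to Q1 or Q2, then its kernel meets every subspace `U` defined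
over the algebraic numbers in dimension at most `m / (n + m) ≤ 1 / 2` times the dimension of `U`.
In particular (`ρ ≤ s - 1`) a kernel vector whose coordinates span a space of dimension
`s` over the algebraic numbers, and of dimension `m` over `ℚ`, can exist only if `(s - 1) m ≥ n`; and we show
that `s` divides `m` if `(s - 1) m = n`. For `s = 2` this gives the case of odd `n`: a
counterexample with odd `n` has no kernel vector whose coordinates lie in `K x + K y`, `K` a number field.

In the Lean statement `U` is the column space of a matrix `A` with algebraic entries and independent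
columns; `m` is the dimension of the rational space spanned by the rows of `A`.

Proof. (1) The linear subgroup theorem for linear forms in logarithms with algebraic
coefficients (`P8H63.RS.lstk`, from the obstruction theorem of the library): if the rank of `M`
on `U` is `ρ < s`, there are a subspace `N ≠ 0` of `U` and a space `S` with
`codim S / dim N ≤ ρ / (s - ρ)` such that `wᵗ M x` is an algebraic multiple of `2 π i` (zero in the `p`-adic
case) for `w ∈ S`, `x ∈ N`. (2) For a subspace `X` let `r(X)` be the codimension of the space of
the `w` with `wᵗ M x ∈ Qbar 2 π i` for all `x ∈ X`. By Baker's (Brumer's) theorem `r` is invariant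
under the Galois group, and it is submodular. As for filtrations of Harder and Narasimhan, a
subspace `X` of the rational hull of `U` of smallest slope `r(X) / dim X` generates, with
its conjugates, a rational space `Z` of the same slope or less. (3) If there is no rational zero, then
`r(Z) = n` for a rational `Z` of dimension at least two (and `r(Z) ≥ n - 1` if the dimension is one), so that
`n / m ≤ ρ / (s - ρ)`. (4) Let `(s - 1) m = n` and let `U` be the smallest algebraic space that contains a given
kernel vector. By the hyperplane theorem `r(U) ≤ s (s - 1)`, so that `U` has the smallest slope `s - 1`, and every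
proper subspace has a greater slope (hyperplane theorem for the quotient). Hence the sum
of the conjugates of `U`, which has dimension `m`, is a direct sum of some of them.
-/

namespace Pool.Agent.Results.MP_1f047c_nt.RankOnSubspaces

open Module

/-- `L` is the Iwasawa `p`-adic logarithm on the algebraic closure of `ℚ_p`. -/
def IsIwasawaLog (p : ℕ) [Fact p.Prime] (L : PadicAlgCl p → PadicAlgCl p) : Prop :=
  (∀ x y : PadicAlgCl p, x ≠ 0 → y ≠ 0 → L (x * y) = L x + L y) ∧
  L ((p : ℕ) : PadicAlgCl p) = 0 ∧
  ∀ z : PadicAlgCl p, ‖z‖ < 1 →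
    HasSum (fun n : ℕ => (-1 : PadicAlgCl p) ^ n * z ^ (n + 1) / ((n : PadicAlgCl p) + 1))
      (L (1 + z))

/-- The conclusion of Q1 and Q2: there are nonzero rational vectors `w`, `v` with `wᵗ M v = 0`. -/
def HasRationalZero {E : Type} [Field E] [CharZero E] {n : ℕ} (M : Matrix (Fin n) (Fin n) E) : Prop :=
  ∃ w v : Fin n → ℚ, w ≠ 0 ∧ v ≠ 0 ∧ ∑ i, ∑ j, ((w i : ℚ) : E) * M i j * ((v j : ℚ) : E) = 0

/-- Dimension of the rational space spanned by the rows of `A`, that is the dimension of the
smallest space defined over `ℚ` that contains the columns of `A`. -/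
noncomputable def rowDim {E : Type} [Field E] [CharZero E] {n s : ℕ}
    (A : Matrix (Fin n) (Fin s) E) : ℕ :=
  finrank ℚ (Submodule.span ℚ (Set.range (fun i => A i)))

/-- Dimension, over the field of algebraic numbers in `E`, of the space spanned by the coordinates -/
noncomputable def algDim {E : Type} [Field E] [CharZero E] {n : ℕ} (ξ : Fin n → E) : ℕ :=
  finrank (algebraicClosure ℚ E) (Submodule.span (algebraicClosure ℚ E) (Set.range ξ))

/-- Dimension, over `ℚ`, of the space spanned by the coordinates -/
noncomputable def ratDim {E : Type} [Field E] [CharZero E] {n : ℕ} (ξ : Fin n → E) : ℕ :=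
  finrank ℚ (Submodule.span ℚ (Set.range ξ))

/-- The assertions of the theorem for all `n × n` matrices `M` with entries in `𝓛`; `B` is `M` or its transpose.
(a) If `A` is an `n × s` matrix of algebraic numbers of rank `s`, `m` the dimension of the rational
space spanned by its rows, `ρ` the rank of `B A` and `ρ m < (s - ρ) n`, then `M` has a rational zero.
(b) If `ξ ≠ 0`, `B ξ = 0` and `(s - 1) m < n`, or `(s - 1) m = n` and `s` does not divide `m`, where `s` and `m`
are the dimensions of the spaces spanned by the coordinates of `ξ` over the algebraic numbers and over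
`ℚ`, then `M` has a rational zero.
(c) If `ξ ≠ 0`, `B ξ = 0`, all coordinates of `ξ` lie in `K x_1 + ... + K x_s` for a number field `K`, and
`s (s - 1) [K : ℚ] < n`, or `s = 2` and `n` is odd, then `M` has a rational zero. -/
def Assertions (E : Type) [Field E] [CharZero E] (𝓛 : Set E) : Prop :=
  ∀ (n : ℕ) (M B : Matrix (Fin n) (Fin n) E), (∀ i j, M i j ∈ 𝓛) → (B = M ∨ B = M.transpose) →
    (∀ (s : ℕ) (A : Matrix (Fin n) (Fin s) E), (∀ i j, IsAlgebraic ℚ (A i j)) → A.rank = s →
      (B * A).rank * rowDim A < (s - (B * A).rank) * n → HasRationalZero M) ∧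
    (∀ ξ : Fin n → E, ξ ≠ 0 → B.mulVec ξ = 0 →
      ((algDim ξ - 1) * ratDim ξ < n ∨
        ((algDim ξ - 1) * ratDim ξ = n ∧ ¬ algDim ξ ∣ ratDim ξ)) → HasRationalZero M) ∧
    (∀ (K : Type) [Field K] [NumberField K] (ι : K →+* E) (s : ℕ) (a : Fin n → Fin s → K)
      (x : Fin s → E) (ξ : Fin n → E), (∀ i, ξ i = ∑ t, ι (a i t) * x t) → ξ ≠ 0 →
      B.mulVec ξ = 0 → (s * (s - 1) * finrank ℚ K < n ∨ (s = 2 ∧ Odd n)) → HasRationalZero M)

/-- **Main result.** The assertions (a), (b), (c) hold for the complex logarithms of algebraic numbers, and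
for the `p`-adic logarithms of algebraic numbers. -/
theorem result :
    Assertions ℂ {z : ℂ | IsAlgebraic ℚ (Complex.exp z)} ∧
    ∀ (p : ℕ) [Fact p.Prime] (L : PadicAlgCl p → PadicAlgCl p), IsIwasawaLog p L →
      Assertions (PadicAlgCl p) {z | ∃ α : PadicAlgCl p, α ≠ 0 ∧ IsAlgebraic ℚ α ∧ z = L α} := by
  have htr : ∀ {E : Type} [Field E] [CharZero E] {n : ℕ} {M : Matrix (Fin n) (Fin n) E},
      Pool.Agent.P8H63.RS.HasZero M.transpose → HasRationalZero M := by
    rintro E _ _ n M ⟨w, v, hw, hv, h⟩
    refine ⟨v, w, hv, hw, ?_⟩
    rw [← h, Finset.sum_comm]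
    refine Finset.sum_congr rfl fun i _ => Finset.sum_congr rfl fun j _ => ?_
    rw [Matrix.transpose_apply]
    ring
  refine ⟨?_, ?_⟩
  · intro n M B hM hB
    have hker : ∀ ξ : Fin n → ℂ, B.mulVec ξ = 0 → M.mulVec ξ = 0 ∨ M.vecMul ξ = 0 := by
      intro ξ h
      rcases hB with rfl | rfl
      · exact Or.inl h
      · exact Or.inr (by rwa [Matrix.mulVec_transpose] at h)
    refine ⟨fun s A hA hr h => ?_, fun ξ hξ h hn => ?_, fun K _ _ ι s a x ξ hrep hξ h hn => ?_⟩
    · rcases hB with rfl | rfl
      · exact Pool.Agent.P8H63.RS.main_complex n s _ (fun i j => hM i j) A hA hr h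
      · exact htr (Pool.Agent.P8H63.RS.main_complex n s _ (fun i j => hM j i) A hA hr h)
    · exact Pool.Agent.P8H63.RS.complex_case2 M hM ξ hξ (hker ξ h) hn
    · exact Pool.Agent.P8H63.RS.complex_case2 M hM ξ hξ (hker ξ h)
        (Pool.Agent.P8H63.RS.cond_field K ι s a x ξ hrep hn)
  · intro p _ L hL n M B hM hB
    have hL' : Pool.Agent.W245.PB.IsIwasawaLog p L := ⟨hL.1, hL.2.1, hL.2.2⟩
    have hker : ∀ ξ : Fin n → PadicAlgCl p, B.mulVec ξ = 0 → M.mulVec ξ = 0 ∨ M.vecMul ξ = 0 := by
      intro ξ h
      rcases hB with rfl | rfl
      · exact Or.inl h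
      · exact Or.inr (by rwa [Matrix.mulVec_transpose] at h)
    refine ⟨fun s A hA hr h => ?_, fun ξ hξ h hn => ?_, fun K _ _ ι s a x ξ hrep hξ h hn => ?_⟩
    · rcases hB with rfl | rfl
      · exact Pool.Agent.P8H63.RS.main_padic hL' n s _ (fun i j => hM i j) A hA hr h
      · exact htr (Pool.Agent.P8H63.RS.main_padic hL' n s _ (fun i j => hM j i) A hA hr h)
    · exact Pool.Agent.P8H63.RS.padic_case2 hL' M hM ξ hξ (hker ξ h) hn
    · exact Pool.Agent.P8H63.RS.padic_case2 hL' M hM ξ hξ (hker ξ h)
        (Pool.Agent.P8H63.RS.cond_field K ι s a x ξ hrep hn)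

end Pool.Agent.Results.MP_1f047c_nt.RankOnSubspaces
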