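import Pool.Agent.P8H33.QC.App2

/-!
# Q2 over the algebraic closure of `ℚ_2`: spaces of logarithms of arbitrarily large dimension

Let `L` be the Iwasawa logarithm on the algebraic closure `C` of `ℚ_p`, let `ℓ` be an odd prime and let `α_i`
(`i` modulo `ℓ`) be nonzero elements of `C`. Suppose that there are automorphisms `τ`, `σ` of `C` over `ℚ_p` such that
`τ α_i = α_{i+1}`, `σ α_0 = 1 / α_0` and `σ α_i = α_i` for `i ≠ 0` (for `α_0 ≠ ± 1` this is possible only for `p = 2`). Let `V`
be the rational space generated by the logarithms `L(α_i)`.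

1. Let `U` be a rational space whose elements are fixed by `τ` and `σ`. If the conclusion of Q2 holds for all
   `2 × 2` matrices with entries in `U` (the `p`-adic four exponentials for `U`) then it holds for all
   `2 × 2` matrices with entries in `U + V`.
2. The conclusion of Q2 holds for all `3 × 3` matrices with entries in `V`.
3. For `p = 2` and every odd prime `ℓ` there are such algebraic numbers `α_i` with linearly independent logarithms
   (one may take `α_i = (1 + 4 r_i) / (1 - 4 r_i)`, `r_i ^ 2 = 1 + 2 θ_i`, where the `θ_i` form a normal basis of the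
   unramified extension of degree `ℓ` modulo two). So for all algebraic `β`, `γ` whose logarithms lie in `ℚ_2` (for
   instance rational numbers) the `2`-adic four exponentials conjecture holds for the space
   `ℚ L(β) + ℚ L(γ) + V`, of dimension `ℓ + 2` in general, and the assertion of Q2 for `3 × 3` matrices holds for the space `V` of
   dimension `ℓ`.

Proof. Let `x_i = L(α_i)`; conjugation by the powers of `τ` gives automorphisms `σ_i` which change the sign of
`x_i` and fix the other `x_j`. Let `M = W + ∑ x_i m_i` be singular, with the entries of `W` in `U` and rational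
matrices `m_i`. Conjugating `det M = 0` by the `σ_i` one finds that the `m_i` are orthogonal to each other and to `W` for
the polar form of the determinant, and `det W + ∑ det(m_i) x_i ^ 2 = 0`. As `ℓ` is a prime number, a rational
relation between the conjugate numbers `x_i ^ 2` and a number fixed by `τ` has equal coefficients: `det(m_i)` does not
depend on `i`. Three orthogonal
matrices with the same nonzero determinant would span a definite ternary form inside the form `det` of signature
`(2, 2)`. So all `m_i` are singular, and a nonzero one, of rank one, gives the rational vectors. For `3 × 3` matrices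
one gets `det (∑ X_i m_i) = (∑ det(m_i) X_i) (∑ X_i ^ 2)` for all rational `X_i`; it remains to study the
linear spaces of singular rational matrices, for `ℓ ≥ 5` of dimension at least four.
-/

set_option autoImplicit false

namespace Pool.Agent.Results.MP_1f047c_nt.SignedCycles

open Module

/-- `L` is the Iwasawa `p`-adic logarithm on the algebraic closure of `ℚ_p`. -/
def IsIwasawaLog (p : ℕ) [Fact p.Prime] (L : PadicAlgCl p → PadicAlgCl p) : Prop :=
  (∀ x y : PadicAlgCl p, x ≠ 0 → y ≠ 0 → L (x * y) = L x + L y) ∧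
  L ((p : ℕ) : PadicAlgCl p) = 0 ∧
  ∀ z : PadicAlgCl p, ‖z‖ < 1 →
    HasSum (fun n : ℕ => (-1 : PadicAlgCl p) ^ n * z ^ (n + 1) / ((n : PadicAlgCl p) + 1))
      (L (1 + z))

/-- Every singular `n × n` matrix with entries in `V` satisfies the conclusion of Q2. -/
def Q2For {p : ℕ} [Fact p.Prime] (n : ℕ) (V : Submodule ℚ (PadicAlgCl p)) : Prop :=
  ∀ M : Matrix (Fin n) (Fin n) (PadicAlgCl p), (∀ i j, M i j ∈ V) → M.det = 0 →
    ∃ w v : Fin n → ℚ, w ≠ 0 ∧ v ≠ 0 ∧
      ∑ i, ∑ j, (w i : PadicAlgCl p) * M i j * (v j : PadicAlgCl p) = 0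

/-- The rational span of the logarithms of the numbers `α i`. -/
noncomputable def logSpan {p ℓ : ℕ} [Fact p.Prime] (L : PadicAlgCl p → PadicAlgCl p)
    (α : ZMod ℓ → PadicAlgCl p) : Submodule ℚ (PadicAlgCl p) :=
  Submodule.span ℚ (Set.range fun i => L (α i))

/-- **Main result.** -/
theorem result :
    (∀ (p : ℕ) [Fact p.Prime] (L : PadicAlgCl p → PadicAlgCl p), IsIwasawaLog p L →
      ∀ (ℓ : ℕ) [Fact ℓ.Prime], ℓ ≠ 2 → ∀ α : ZMod ℓ → PadicAlgCl p, (∀ i, α i ≠ 0) →
      ∀ τ σ : PadicAlgCl p ≃ₐ[ℚ_[p]] PadicAlgCl p, (∀ i, τ (α i) = α (i + 1)) →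
        σ (α 0) = (α 0)⁻¹ → (∀ i, i ≠ 0 → σ (α i) = α i) →
        (∀ U : Submodule ℚ (PadicAlgCl p), (∀ w ∈ U, τ w = w) → (∀ w ∈ U, σ w = w) →
          Q2For 2 U → Q2For 2 (U ⊔ logSpan L α)) ∧
        Q2For 3 (logSpan L α)) ∧
    ∀ L : PadicAlgCl 2 → PadicAlgCl 2, IsIwasawaLog 2 L → ∀ (ℓ : ℕ) [Fact ℓ.Prime], ℓ ≠ 2 →
      ∃ α : ZMod ℓ → PadicAlgCl 2, (∀ i, α i ≠ 0 ∧ IsAlgebraic ℚ (α i)) ∧
        LinearIndependent ℚ (fun i => L (α i)) ∧ Q2For 3 (logSpan L α) ∧
        ∀ β γ : PadicAlgCl 2, β ≠ 0 → γ ≠ 0 → IsAlgebraic ℚ β → IsAlgebraic ℚ γ →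
          (∃ b : ℚ_[2], L β = b) → (∃ c : ℚ_[2], L γ = c) →
            Disjoint (Submodule.span ℚ {L β, L γ}) (logSpan L α) ∧
            Q2For 2 (Submodule.span ℚ {L β, L γ} ⊔ logSpan L α) := by
  refine ⟨?_, ?_⟩
  · intro p _ L hL ℓ _ hℓ α hα τ σ hτ hσ0 hσ
    have hL' : Pool.Agent.W245.PB.IsIwasawaLog p L := ⟨hL.1, hL.2.1, hL.2.2⟩
    refine ⟨?_, ?_⟩
    · intro U hUτ hUσ hU
      exact Pool.Agent.P8H33.QC.wre_four hL' hℓ α hα U τ σ hτ hσ0 hσ hUτ hUσ hU
    · exact Pool.Agent.P8H33.QC.wre_three hL' hℓ α hα τ σ hτ hσ0 hσ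
  · intro L hL ℓ _ hℓ
    have hL' : Pool.Agent.W245.PB.IsIwasawaLog 2 L := ⟨hL.1, hL.2.1, hL.2.2⟩
    exact Pool.Agent.P8H33.QC.exists_wre hL' ℓ hℓ

end Pool.Agent.Results.MP_1f047c_nt.SignedCycles
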